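import Pool.Agent.Helper82.AH.Props
import Pool.Agent.Helper82.AH.Basic
import Pool.Agent.Helper10.RC.Homs

/-!
# MP_b55b7c_an: packet AH-QA, quasitraces on AH algebras are additive
-/

open scoped ENNReal NNReal InnerProductSpace ComplexOrder
open Filter Topology

attribute [-instance] CStarMatrix.instAlgebra CStarMatrix.instModule CStarMatrix.instSMul
  CStarMatrix.instMulAction CStarMatrix.instDistribMulAction

noncomputable section
namespace RC
universe u

/-! ### Matrices -/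

theorem qa_mat_mul {N : ℕ} (a b : Mt N) : (a * b).mat = a.mat * b.mat := rfl

theorem qa_mat_add {N : ℕ} (a b : Mt N) : (a + b).mat = a.mat + b.mat := rfl

theorem qa_trM_add {N : ℕ} (a b : Mt N) : trM (a + b) = trM a + trM b := by
  unfold trM
  rw [qa_mat_add, Matrix.trace_add, Complex.add_re]

theorem qa_trM_smul {N : ℕ} (c : ℝ) (a : Mt N) : trM ((c : ℂ) • a) = c * trM a := by
  unfold trM
  have h : ((c : ℂ) • a).mat = (c : ℂ) • a.mat := rfl
  rw [h, Matrix.trace_smul, smul_eq_mul, Complex.re_ofReal_mul]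

theorem qa_trM_zero {N : ℕ} : trM (0 : Mt N) = 0 := by
  unfold trM
  have h : (0 : Mt N).mat = 0 := rfl
  rw [h, Matrix.trace_zero, Complex.zero_re]

theorem qa_trM_cont {N : ℕ} : Continuous (trM : Mt N → ℝ) := by
  let L : Mt N →ₗ[ℝ] ℝ :=
    { toFun := trM
      map_add' := qa_trM_add
      map_smul' := by
        intro c a
        have h : (c • a : Mt N) = (c : ℂ) • a := rfl
        rw [h, qa_trM_smul]
        rfl }
  haveI : FiniteDimensional ℝ (Mt N) := by
    haveI : FiniteDimensional ℂ (Mt N) :=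
      inferInstanceAs (FiniteDimensional ℂ (Matrix (Fin N) (Fin N) ℂ))
    exact FiniteDimensional.complexToReal (Mt N)
  exact L.continuous_of_finiteDimensional

theorem qa_trM_proj {N : ℕ} (P : Mt N) (hP : IsStarProjection P) (h0 : P ≠ 0) : 1 ≤ trM P := by
  unfold trM
  have h1 : P.mat * P.mat = P.mat := by
    rw [← qa_mat_mul, hP.isIdempotentElem.eq]
  have h2 : P.mat ≠ 0 := fun h => h0 h
  have h3 : IsIdempotentElem (Matrix.toLin' P.mat) := by
    unfold IsIdempotentElem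
    rw [Module.End.mul_eq_comp, ← Matrix.toLin'_mul, h1]
  have h4 := (LinearMap.IsIdempotentElem.isProj_range _ h3).trace
  have h6 : LinearMap.trace ℂ (Fin N → ℂ) (Matrix.toLin' P.mat) = P.mat.trace :=
    Matrix.trace_toLin'_eq P.mat
  rw [h6] at h4
  rw [h4]
  have h5 : Module.finrank ℂ (LinearMap.range (Matrix.toLin' P.mat)) ≠ 0 := by
    intro h
    rw [Submodule.finrank_eq_zero, LinearMap.range_eq_bot] at h
    exact h2 (by simpa using h)
  rw [Complex.natCast_re]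
  exact_mod_cast Nat.one_le_iff_ne_zero.2 h5

theorem qa_trM_nonneg {N : ℕ} (a : Mt N) (ha : 0 ≤ a) : 0 ≤ trM a := by
  obtain ⟨b, rfl⟩ := CStarAlgebra.nonneg_iff_eq_star_mul_self.1 ha
  unfold trM
  have h : (star b * b).mat = b.mat.conjTranspose * b.mat := rfl
  rw [h]
  have h1 := (Matrix.posSemidef_conjTranspose_mul_self b.mat).trace_nonneg
  exact (Complex.le_def.1 h1).1

/-! ### Quasitraces -/

section
variable {A : Type u} [CStarAlgebra A] [PartialOrder A] [StarOrderedRing A]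

/-- The quasitrace on `A`. -/
def qaS (σ : QTrace A) (a : A) : ℝ := σ.τ Unit (one1 a)

theorem qaS_add (σ : QTrace A) {a b : A} (ha : 0 ≤ a) (hb : 0 ≤ b) (h : a * b = b * a) :
    qaS σ (a + b) = qaS σ a + qaS σ b := by
  unfold qaS
  have h1 : one1 (a + b) = one1 a + one1 b := map_add one1H a b
  have h2 : one1 a * one1 b = one1 b * one1 a := by
    have h3 : one1H (a * b) = one1H (b * a) := by rw [h]
    rw [map_mul, map_mul] at h3
    exact h3
  rw [h1]
  exact σ.add Unit _ _ (one1_nonneg ha) (one1_nonneg hb) h2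

theorem qaS_smul (σ : QTrace A) {c : ℝ} {a : A} (hc : 0 ≤ c) (ha : 0 ≤ a) :
    qaS σ (c • a) = c * qaS σ a := by
  unfold qaS
  have h1 : one1 (c • a) = c • one1 a := rfl
  rw [h1]
  exact σ.smul Unit c _ hc (one1_nonneg ha)

theorem qaS_one (σ : QTrace A) : qaS σ 1 = 1 := by
  unfold qaS
  have h1 : one1 (1 : A) = 1 := map_one one1H
  rw [h1]
  exact σ.one

theorem qaS_zero (σ : QTrace A) : qaS σ 0 = 0 := by
  have h := qaS_smul σ (c := 0) (a := (0 : A)) le_rfl le_rfl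
  rw [zero_smul, zero_mul] at h
  exact h

theorem qaS_mono (hM : TauMonoP.{u}) (σ : QTrace A) {a b : A} (ha : 0 ≤ a) (hab : a ≤ b) :
    qaS σ a ≤ qaS σ b := by
  refine hM A σ Unit _ _ (one1_nonneg ha) ?_
  have h1 : 0 ≤ one1H (b - a) := map_nonneg one1H (sub_nonneg.2 hab)
  rw [map_sub] at h1
  exact sub_nonneg.1 h1

theorem qaS_lip1 (hM : TauMonoP.{u}) (σ : QTrace A) {a b : A} (ha : 0 ≤ a) (hb : 0 ≤ b) :
    qaS σ a ≤ qaS σ b + ‖a - b‖ := by
  have h0 : (0 : A) ≤ 1 := zero_le_one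
  have h1 : a ≤ b + ‖a - b‖ • (1 : A) := by
    have h2 : a - b ≤ algebraMap ℝ A ‖a - b‖ :=
      IsSelfAdjoint.le_algebraMap_norm_self (ha.isSelfAdjoint.sub hb.isSelfAdjoint)
    rw [Algebra.algebraMap_eq_smul_one] at h2
    have h3 := add_le_add_right h2 b
    first
      | exact (by simpa using h3)
      | (have h4 := add_le_add_left h2 b
         simpa using h4)
  have h5 : (0 : A) ≤ ‖a - b‖ • (1 : A) := by
    have := (IsSelfAdjoint.all ‖a - b‖)
    rw [← Algebra.algebraMap_eq_smul_one]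
    exact algebraMap_nonneg A (norm_nonneg _)
  refine (qaS_mono hM σ ha h1).trans ?_
  rw [qaS_add σ hb h5 (by rw [mul_smul_comm, smul_mul_assoc, one_mul, mul_one]),
    qaS_smul σ (norm_nonneg _) h0, qaS_one, mul_one]

theorem qaS_lip (hM : TauMonoP.{u}) (σ : QTrace A) {a b : A} (ha : 0 ≤ a) (hb : 0 ≤ b) :
    |qaS σ a - qaS σ b| ≤ ‖a - b‖ := by
  rw [abs_le]
  have h1 := qaS_lip1 hM σ ha hb
  have h2 := qaS_lip1 hM σ hb ha
  rw [norm_sub_rev] at h2
  constructor <;> linarith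

/-! ### One block -/

/-- The weight of `f`. -/
def qaW (H : HCor A) (f : C(H.X, Mt H.N)) (x : H.X) : ℝ := trM (f x) / max (trM (H.p x)) 1

theorem qaW_cont (H : HCor A) (f : C(H.X, Mt H.N)) : Continuous (qaW H f) := by
  refine Continuous.div (qa_trM_cont.comp f.continuous)
    ((qa_trM_cont.comp H.p.continuous).max continuous_const) fun x => ?_
  have : (0 : ℝ) < max (trM (H.p x)) 1 := lt_max_of_lt_right one_pos
  exact this.ne'

/-- The central element with the same trace. -/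
def qaP (H : HCor A) (f : C(H.X, Mt H.N)) : C(H.X, Mt H.N) where
  toFun x := ((qaW H f x : ℝ) : ℂ) • H.p x
  continuous_toFun := (Complex.continuous_ofReal.comp (qaW_cont H f)).smul H.p.continuous

theorem qaP_apply (H : HCor A) (f : C(H.X, Mt H.N)) (x : H.X) :
    qaP H f x = ((qaW H f x : ℝ) : ℂ) • H.p x := rfl

theorem qaW_nonneg (H : HCor A) (f : C(H.X, Mt H.N)) (hf : ∀ x, 0 ≤ f x) (x : H.X) :
    0 ≤ qaW H f x :=
  div_nonneg (qa_trM_nonneg _ (hf x)) (zero_le_one.trans (le_max_right _ _))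

theorem qaP_nonneg (H : HCor A) (f : C(H.X, Mt H.N)) (hf : ∀ x, 0 ≤ f x) (x : H.X) :
    0 ≤ qaP H f x := by
  rw [qaP_apply]
  have h1 := qaW_nonneg H f hf x
  have h2 : ((qaW H f x : ℝ) : ℂ) • H.p x =
      star (((Real.sqrt (qaW H f x) : ℝ) : ℂ) • H.p x) *
        (((Real.sqrt (qaW H f x) : ℝ) : ℂ) • H.p x) := by
    rw [star_smul, (H.proj x).isSelfAdjoint.star_eq, smul_mul_smul_comm,
      (H.proj x).isIdempotentElem.eq]
    congr 1
    rw [Complex.star_def, Complex.conj_ofReal, ← Complex.ofReal_mul, Real.mul_self_sqrt h1]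
  rw [h2]
  exact star_mul_self_nonneg _

theorem qaP_corner (H : HCor A) (f : C(H.X, Mt H.N)) : H.p * qaP H f * H.p = qaP H f := by
  ext1 x
  rw [ContinuousMap.mul_apply, ContinuousMap.mul_apply, qaP_apply, mul_smul_comm,
    smul_mul_assoc, (H.proj x).isIdempotentElem.eq, (H.proj x).isIdempotentElem.eq]

theorem qaP_tr (H : HCor A) (f : C(H.X, Mt H.N)) (hf : H.p * f * H.p = f) (x : H.X) :
    trM (f x) = trM (qaP H f x) := by
  rw [qaP_apply, qa_trM_smul]
  unfold qaW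
  by_cases h : H.p x = 0
  · have h1 : f x = 0 := by
      have h2 := congrArg (fun w => w x) hf
      simp only [ContinuousMap.mul_apply] at h2
      rw [← h2, h, mul_zero]
    rw [h1, h, qa_trM_zero, mul_zero]
  · have h1 := qa_trM_proj (H.p x) (H.proj x) h
    rw [max_eq_left h1, div_mul_cancel₀]
    have : 0 < trM (H.p x) := by linarith
    exact this.ne'

theorem qaP_add (H : HCor A) (f g : C(H.X, Mt H.N)) : qaP H (f + g) = qaP H f + qaP H g := by
  ext1 x
  rw [ContinuousMap.add_apply, qaP_apply, qaP_apply, qaP_apply, ← add_smul]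
  congr 1
  unfold qaW
  rw [ContinuousMap.add_apply, qa_trM_add, add_div, Complex.ofReal_add]

theorem qaP_comm (H : HCor A) (f g : C(H.X, Mt H.N)) :
    H.ψ (qaP H f) * H.ψ (qaP H g) = H.ψ (qaP H g) * H.ψ (qaP H f) := by
  rw [H.mul, H.mul]
  congr 1
  ext1 x
  simp only [ContinuousMap.mul_apply, qaP_apply]
  rw [smul_mul_assoc, smul_mul_assoc, mul_smul_comm, smul_mul_assoc, smul_mul_assoc,
    mul_smul_comm, smul_comm]

theorem qa_block (hQ : QIdP.{u}) (σ : QTrace A) (H : HCor A) (f g : C(H.X, Mt H.N))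
    (hf : H.p * f * H.p = f) (hg : H.p * g * H.p = g) (hf0 : ∀ x, 0 ≤ f x) (hg0 : ∀ x, 0 ≤ g x) :
    qaS σ (H.ψ (f + g)) = qaS σ (H.ψ f) + qaS σ (H.ψ g) := by
  have key : ∀ h : C(H.X, Mt H.N), H.p * h * H.p = h → (∀ x, 0 ≤ h x) →
      qaS σ (H.ψ h) = qaS σ (H.ψ (qaP H h)) := fun h h1 h2 =>
    hQ A σ H h (qaP H h) h1 (qaP_corner H h) h2 (qaP_nonneg H h h2) (qaP_tr H h h1)
  rw [key (f + g) (by rw [mul_add, add_mul, hf, hg]) (fun x => add_nonneg (hf0 x) (hg0 x)),
    key f hf hf0, key g hg hg0, qaP_add, map_add,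
    qaS_add σ (H.psi_nonneg _ (qaP_nonneg H f hf0)) (H.psi_nonneg _ (qaP_nonneg H g hg0))
      (qaP_comm H f g)]

/-! ### Several blocks -/

theorem qa_fam (σ : QTrace A) {n : ℕ} (H : Fin n → HCor A)
    (ho : ∀ l m, l ≠ m → ∀ f g, (H l).ψ f * (H m).ψ g = 0)
    (f : ∀ l, C((H l).X, Mt (H l).N)) (hf : ∀ l x, 0 ≤ f l x) (T : Finset (Fin n)) :
    qaS σ (∑ l ∈ T, (H l).ψ (f l)) = ∑ l ∈ T, qaS σ ((H l).ψ (f l)) := by
  induction T using Finset.induction_on with
  | empty => rw [Finset.sum_empty, Finset.sum_empty, qaS_zero]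
  | insert l T hl ih =>
    rw [Finset.sum_insert hl, Finset.sum_insert hl, ← ih]
    refine qaS_add σ ((H l).psi_nonneg _ (hf l))
      (Finset.sum_nonneg fun m _ => (H m).psi_nonneg _ (hf m)) ?_
    rw [Finset.mul_sum, Finset.sum_mul, Finset.sum_eq_zero, Finset.sum_eq_zero]
    · intro m hm
      exact ho m l (fun h => hl (h ▸ hm)) _ _
    · intro m hm
      exact ho l m (fun h => hl (h ▸ hm)) _ _

theorem qa_fam_add (hQ : QIdP.{u}) (σ : QTrace A) {n : ℕ} (H : Fin n → HCor A)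
    (ho : ∀ l m, l ≠ m → ∀ f g, (H l).ψ f * (H m).ψ g = 0)
    (f g : ∀ l, C((H l).X, Mt (H l).N)) (hf : ∀ l, (H l).p * f l * (H l).p = f l)
    (hg : ∀ l, (H l).p * g l * (H l).p = g l) (hf0 : ∀ l x, 0 ≤ f l x)
    (hg0 : ∀ l x, 0 ≤ g l x) :
    qaS σ (∑ l, (H l).ψ (f l) + ∑ l, (H l).ψ (g l)) =
      qaS σ (∑ l, (H l).ψ (f l)) + qaS σ (∑ l, (H l).ψ (g l)) := by
  have h1 : ∑ l, (H l).ψ (f l) + ∑ l, (H l).ψ (g l) = ∑ l, (H l).ψ (f l + g l) := by
    rw [← Finset.sum_add_distrib]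
    exact Finset.sum_congr rfl fun l _ => (map_add _ _ _).symm
  rw [h1, qa_fam σ H ho (fun l => f l + g l) (fun l x => add_nonneg (hf0 l x) (hg0 l x)),
    qa_fam σ H ho f hf0, qa_fam σ H ho g hg0, ← Finset.sum_add_distrib]
  exact Finset.sum_congr rfl fun l _ => qa_block hQ σ (H l) (f l) (g l) (hf l) (hg l) (hf0 l) (hg0 l)

/-- The square of an element of the image. -/
theorem qa_sq {n : ℕ} (H : Fin n → HCor A)
    (ho : ∀ l m, l ≠ m → ∀ f g, (H l).ψ f * (H m).ψ g = 0) (c : ∀ l, C((H l).X, Mt (H l).N)) :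
    ∃ f : ∀ l, C((H l).X, Mt (H l).N), (∀ l, (H l).p * f l * (H l).p = f l) ∧
      (∀ l x, 0 ≤ f l x) ∧
      star (∑ l, (H l).ψ (c l)) * ∑ l, (H l).ψ (c l) = ∑ l, (H l).ψ (f l) := by
  refine ⟨fun l => (H l).p * (star (c l) * (H l).p * c l) * (H l).p, ?_, ?_, ?_⟩
  · intro l
    have := (H l).p_p
    calc (H l).p * ((H l).p * (star (c l) * (H l).p * c l) * (H l).p) * (H l).p
        = ((H l).p * (H l).p) * (star (c l) * (H l).p * c l) * ((H l).p * (H l).p) := by
          simp only [mul_assoc]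
      _ = _ := by rw [this]
  · intro l x
    simp only [ContinuousMap.mul_apply, ContinuousMap.star_apply]
    have h1 : star ((H l).p x) = (H l).p x := ((H l).proj x).isSelfAdjoint.star_eq
    have h2 : (H l).p x * (H l).p x = (H l).p x := ((H l).proj x).isIdempotentElem.eq
    have h3 : (H l).p x * (star (c l x) * (H l).p x * c l x) * (H l).p x =
        star ((H l).p x * c l x * (H l).p x) * ((H l).p x * c l x * (H l).p x) := by
      rw [star_mul, star_mul, h1]
      calc (H l).p x * (star (c l x) * (H l).p x * c l x) * (H l).p x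
          = (H l).p x * (star (c l x) * ((H l).p x * (H l).p x) * c l x) * (H l).p x := by rw [h2]
        _ = _ := by simp only [mul_assoc]
    rw [h3]
    exact star_mul_self_nonneg _
  · rw [star_sum, Finset.sum_mul]
    refine Finset.sum_congr rfl fun l _ => ?_
    rw [Finset.mul_sum, Finset.sum_eq_single l]
    · rw [← (H l).map_star', (H l).mul, (H l).comp]
    · intro m _ hm
      rw [← (H l).map_star']
      exact ho l m hm.symm _ _
    · intro h
      exact absurd (Finset.mem_univ l) h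

theorem qa_close {a y : A} (ha : 0 ≤ a) {δ : ℝ} (hδ : 0 ≤ δ) (hδ1 : δ ≤ 1)
    (h : ‖CFC.sqrt a - y‖ ≤ δ) : ‖a - star y * y‖ ≤ δ * (2 * ‖CFC.sqrt a‖ + 1) := by
  set r := CFC.sqrt a with hr
  have h1 : star r = r := (CFC.sqrt_nonneg a).isSelfAdjoint.star_eq
  have h2 : r * r = a := CFC.sqrt_mul_sqrt_self a ha
  have h3 : a - star y * y = star (r - y) * r + star y * (r - y) := by
    rw [star_sub, h1, sub_mul, mul_sub, h2]
    abel
  have h4 : ‖y‖ ≤ ‖r‖ + δ := by
    have : y = r - (r - y) := by abel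
    rw [this]
    exact (norm_sub_le _ _).trans (by linarith)
  rw [h3]
  refine (norm_add_le _ _).trans ?_
  have h5 : ‖star (r - y) * r‖ ≤ δ * ‖r‖ := by
    refine (norm_mul_le _ _).trans ?_
    rw [norm_star]
    exact mul_le_mul_of_nonneg_right h (norm_nonneg _)
  have h6 : ‖star y * (r - y)‖ ≤ (‖r‖ + δ) * δ := by
    refine (norm_mul_le _ _).trans ?_
    rw [norm_star]
    exact mul_le_mul h4 h (norm_nonneg _) (by have := norm_nonneg r; linarith)
  nlinarith

end

theorem qAddP (hM : TauMonoP.{u}) (hQ : QIdP.{u}) : QAddP.{u} := by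
  intro A _ _ _ hA σ a b ha hb
  classical
  change qaS σ (a + b) = qaS σ a + qaS σ b
  set Ka : ℝ := 2 * ‖CFC.sqrt a‖ + 1 with hKa
  set Kb : ℝ := 2 * ‖CFC.sqrt b‖ + 1 with hKb
  have hKa0 : 0 < Ka := by positivity
  have hKb0 : 0 < Kb := by positivity
  have main : ∀ δ : ℝ, 0 < δ → δ ≤ 1 →
      |qaS σ (a + b) - (qaS σ a + qaS σ b)| ≤ 2 * (Ka + Kb) * δ := by
    intro δ hδ hδ1
    obtain ⟨n, H, ho, -, -, hap⟩ := hA {CFC.sqrt a, CFC.sqrt b} δ 0 hδ
    obtain ⟨c, hc⟩ := hap (CFC.sqrt a) (by simp)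
    obtain ⟨d, hd⟩ := hap (CFC.sqrt b) (by simp)
    obtain ⟨f, hf, hf0, hfc⟩ := qa_sq H ho c
    obtain ⟨g, hg, hg0, hgd⟩ := qa_sq H ho d
    have h1 := qa_close ha hδ.le hδ1 hc
    have h2 := qa_close hb hδ.le hδ1 hd
    rw [hfc] at h1
    rw [hgd] at h2
    have hF : 0 ≤ ∑ l, (H l).ψ (f l) :=
      Finset.sum_nonneg fun l _ => (H l).psi_nonneg _ (hf0 l)
    have hG : 0 ≤ ∑ l, (H l).ψ (g l) :=
      Finset.sum_nonneg fun l _ => (H l).psi_nonneg _ (hg0 l)
    have h3 := qa_fam_add hQ σ H ho f g hf hg hf0 hg0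
    have e1 := qaS_lip hM σ ha hF
    have e2 := qaS_lip hM σ hb hG
    have e3 := qaS_lip hM σ (add_nonneg ha hb) (add_nonneg hF hG)
    have e4 : ‖a + b - (∑ l, (H l).ψ (f l) + ∑ l, (H l).ψ (g l))‖ ≤ δ * Ka + δ * Kb := by
      have : a + b - (∑ l, (H l).ψ (f l) + ∑ l, (H l).ψ (g l)) =
          (a - ∑ l, (H l).ψ (f l)) + (b - ∑ l, (H l).ψ (g l)) := by abel
      rw [this]
      exact (norm_add_le _ _).trans (add_le_add h1 h2)
    rw [h3] at e3
    rw [abs_le] at e1 e2 e3 ⊢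
    constructor <;> nlinarith [e1.1, e1.2, e2.1, e2.2, e3.1, e3.2]
  have hz : |qaS σ (a + b) - (qaS σ a + qaS σ b)| ≤ 0 := by
    refine le_of_forall_pos_le_add fun η hη => ?_
    have hK : 0 < 2 * (Ka + Kb) := by positivity
    have h1 := main (min 1 (η / (2 * (Ka + Kb)))) (lt_min one_pos (div_pos hη hK))
      (min_le_left _ _)
    refine h1.trans ?_
    rw [zero_add]
    calc 2 * (Ka + Kb) * min 1 (η / (2 * (Ka + Kb))) ≤
        2 * (Ka + Kb) * (η / (2 * (Ka + Kb))) :=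
          mul_le_mul_of_nonneg_left (min_le_right _ _) hK.le
      _ = η := by field_simp
  have := abs_nonpos_iff.1 hz
  linarith

end RC
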